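import Pool.Agent.J4H75.NC.Stm

/-!
# Project NC: pieces (LST) and (CYC)
-/

set_option autoImplicit false

namespace Pool.Agent.J4H55.NC

open Equiv Pool.Agent.J4H75.NC

theorem t_LST : S_LST := by
  intro G _ _ A f hf hA
  classical
  have := Fintype.ofFinite G
  let a : ℕ → G := fun k => ((f ^ k) 1)⁻¹ * (f ^ (k + 1)) 1
  have hprod : ∀ m, ((List.range m).map a).prod = (f ^ m) 1 := by
    intro m
    induction m with
    | zero => rfl
    | succ m ih =>
      rw [List.range_succ, List.map_append, List.prod_append, ih]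
      show (f ^ m) 1 * (((f ^ m) 1)⁻¹ * (f ^ (m + 1)) 1 * 1) = _
      rw [mul_one, mul_inv_cancel_left]
  have hf' : f.IsCycleOn ((Finset.univ : Finset G) : Set G) := by
    rw [Finset.coe_univ]
    exact hf
  have hcard : (Finset.univ : Finset G).card = Nat.card G := by
    rw [Finset.card_univ, Nat.card_eq_fintype_card]
  have htake : ∀ k < Nat.card G, (((List.range (Nat.card G)).map a).take (k + 1)).prod =
      (f ^ (k + 1)) 1 := by
    intro k hk
    rw [← List.map_take, List.take_range, min_eq_left (by omega), hprod]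
  refine ⟨(List.range (Nat.card G)).map a, ?_, ?_, ?_, ?_⟩
  · rw [List.length_map, List.length_range]
  · intro x hx
    obtain ⟨k, -, rfl⟩ := List.mem_map.1 hx
    have h1 := hA ((f ^ k) 1)
    show ((f ^ k) 1)⁻¹ * (f ^ (k + 1)) 1 ∈ A
    rw [pow_succ', Perm.mul_apply]
    exact h1
  · rw [hprod, ← hcard]
    exact hf'.pow_card_apply (Finset.mem_univ _)
  · have h1 : (List.range (Nat.card G)).map
        (fun k => (((List.range (Nat.card G)).map a).take (k + 1)).prod) =
        (List.range (Nat.card G)).map (fun k => (f ^ (k + 1)) 1) :=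
      List.map_congr_left fun k hk => htake k (List.mem_range.1 hk)
    rw [h1]
    refine List.Nodup.map_on ?_ List.nodup_range
    intro k hk k' hk' h
    have h2 := (hf'.pow_apply_eq_pow_apply (Finset.mem_univ (1 : G))).1 h
    rw [hcard] at h2
    have h3 : k ≡ k' [MOD Nat.card G] := Nat.ModEq.add_right_cancel' 1 h2
    exact Nat.ModEq.eq_of_lt_of_lt h3 (List.mem_range.1 hk) (List.mem_range.1 hk')

theorem t_CYC : S_CYC := by
  intro G _ _ b
  classical
  let Z := Subgroup.zpowers b
  have hb : b ∈ Z := Subgroup.mem_zpowers b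
  let c : Perm G :=
    { toFun := fun x => if x ∈ Z then x * b else x
      invFun := fun x => if x ∈ Z then x * b⁻¹ else x
      left_inv := fun x => by
        by_cases h : x ∈ Z
        · simp only [if_pos h, if_pos (Z.mul_mem h hb), mul_inv_cancel_right]
        · simp only [if_neg h]
      right_inv := fun x => by
        by_cases h : x ∈ Z
        · simp only [if_pos h, if_pos (Z.mul_mem h (Z.inv_mem hb)), inv_mul_cancel_right]
        · simp only [if_neg h] }
  have hc : ∀ x ∈ Z, c x = x * b := fun x hx => if_pos hx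
  have hc' : ∀ x ∉ Z, c x = x := fun x hx => if_neg hx
  have hpow : ∀ n : ℕ, ∀ x ∈ Z, (c ^ n) x = x * b ^ n := by
    intro n
    induction n with
    | zero =>
      intro x _
      rw [pow_zero, pow_zero, mul_one]
      rfl
    | succ n ih =>
      intro x hx
      rw [pow_succ', Perm.mul_apply, ih x hx, hc _ (Z.mul_mem hx (Z.pow_mem hb n)), pow_succ, mul_assoc]
  refine ⟨c, ⟨⟨?_, c.injective.injOn, ?_⟩, ?_⟩, hc', hc⟩
  · intro x hx
    rw [hc x hx]
    exact Z.mul_mem hx hb
  · intro x hx
    refine ⟨x * b⁻¹, Z.mul_mem hx (Z.inv_mem hb), ?_⟩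
    rw [hc _ (Z.mul_mem hx (Z.inv_mem hb)), inv_mul_cancel_right]
  · intro x hx y hy
    obtain ⟨i, hi⟩ := Subgroup.mem_zpowers_iff.1 (Z.mul_mem (Z.inv_mem hx) hy)
    have hxy : y = x * b ^ i := by
      rw [hi, mul_inv_cancel_left]
    rcases Int.eq_nat_or_neg i with ⟨n, rfl | rfl⟩
    · refine ⟨(n : ℤ), ?_⟩
      rw [zpow_natCast, hpow n x hx, hxy, zpow_natCast]
    · refine Perm.SameCycle.symm ⟨(n : ℤ), ?_⟩
      rw [zpow_natCast, hpow n y hy, hxy, zpow_neg, zpow_natCast, inv_mul_cancel_right]

end Pool.Agent.J4H55.NC
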